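import Pool.Agent.P.MP_6c3c64_gt.Main

set_option autoImplicit false

open MeasureTheory

namespace Pool.Agent.Results.MP_6c3c64_gt.Counterexample

/-- A convex body in three-space, not origin symmetric, all of whose central sections have the
largest perimeter among the parallel sections. -/
theorem result : ∃ K : Set (EuclideanSpace ℝ (Fin 3)),
    IsCompact K ∧ Convex ℝ K ∧ (0 : EuclideanSpace ℝ (Fin 3)) ∈ interior K ∧ K ≠ -K ∧
    ∀ u : EuclideanSpace ℝ (Fin 3), ‖u‖ = 1 → ∀ t : ℝ,
      Measure.hausdorffMeasure 1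
        (K ∩ {x | inner ℝ x u = t} ∩ closure ({x | inner ℝ x u = t} \ K)) ≤
      Measure.hausdorffMeasure 1
        (K ∩ {x | inner ℝ x u = 0} ∩ closure ({x | inner ℝ x u = 0} \ K)) := by
  obtain ⟨K, h1, h2, h3, h4, h5⟩ := Pool.Agent.PS.exists_body
  have e : ∀ (u : EuclideanSpace ℝ (Fin 3)) (t : ℝ), Measure.hausdorffMeasure 1
      (K ∩ {x | inner ℝ x u = t} ∩ closure ({x | inner ℝ x u = t} \ K)) =
      Pool.Agent.PS.Per K u t := by
    intro u t
    unfold Pool.Agent.PS.Per
    congr 1
    ext x
    simp only [Set.mem_inter_iff, Set.mem_setOf_eq, Metric.mem_closure_iff, Set.mem_diff,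
      and_assoc, gt_iff_lt]
    refine and_congr_right fun _ => and_congr_right fun _ => forall_congr' fun ε =>
      imp_congr_right fun _ => exists_congr fun y => ?_
    rw [dist_comm]
    tauto
  refine ⟨K, h1, h2, h3, fun h => h5 fun x hx => ?_, fun u hu t => ?_⟩
  · rw [h] at hx
    exact hx
  · rw [e, e]
    exact h4 u hu t

end Pool.Agent.Results.MP_6c3c64_gt.Counterexample
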